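import Pool.Agent.Helper74.Sl2Ext.Main

/-!
# The sl(2) weight system at c = -3/32 extends to a 4-invariant of graphs

There is a 4-invariant of graphs whose value at the intersection graph of every chord diagram is the
value at `c = -3/32` of the sl(2) weight system.

The invariant is explicit. For a graph `G` with `n` vertices and a natural number `q` let `S_q(G)` be
the sum, over all ways to give each vertex `u` an ordered pair of different colours from a set of `q`
colours, of the product over the edges `uv` of `(-1)^k`, where `k` is the number of colours that `u`
and `v` have in common. This is a polynomial in `q`, and the invariant is `(-1/64)^n S_{-2}(G)`.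
-/

open Polynomial

namespace Pool.Agent.Results.MP_4cfd5d_gt.OscillatorExtension

open Pool.Agent.Helper74.Sl2Ext

/-- There is a 4-invariant of graphs that extends the sl(2) weight system at `c = -3/32`: for every
chord diagram `D` there is exactly one polynomial `p` with `p(C) = w(D)` in the universal enveloping
algebra, where `C` is the Casimir element, and the invariant of the intersection graph of `D` is
`p(-3/32)`. -/
theorem result :
    ∃ ξ : GraphInvariant, ξ.IsFourInvariant ∧
      ∀ (n : ℕ) (D : ChordDiagram n), ∃ p : ℂ[X],
        aeval casimir p = sl2Weight D ∧
        (∀ q : ℂ[X], aeval casimir q = sl2Weight D → q = p) ∧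
        ξ.toFun D.Chord D.interGraph = p.eval (-(3 / 32) : ℂ) := by
  refine ⟨xi, xi_fourInvariant, fun n D => ?_⟩
  obtain ⟨p, hp, huniq⟩ := exists_casimir_poly D
  exact ⟨p, hp, huniq, value_eq D p hp⟩

end Pool.Agent.Results.MP_4cfd5d_gt.OscillatorExtension
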